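import Pool.Agent.Q289.OC.Basic

/-! # The octopus inequality from the five point inequality (job OctStm of project OC) -/

set_option autoImplicit false

namespace Q296.OC

open Equiv Finset Q289.OC
open scoped InnerProductSpace

/-- the expansion of the quadrilinear sum -/
lemma expand {n : ℕ} (T : Fin n → Fin n → Fin n → Fin n → ℝ)
    (hT : ∀ i j k l, ¬ dist4 i j k l → T i j k l = 0) (o : Fin n) (b : Fin n → ℝ)
    (hbo : b o = 0) (C : ℝ) (hC : C = ∑ i, b i) :
    ∑ i, ∑ j, ∑ k, ∑ l, (b i - C * (if i = o then 1 else 0)) *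
      (b j - C * (if j = o then 1 else 0)) * (b k - C * (if k = o then 1 else 0)) *
      (b l - C * (if l = o then 1 else 0)) * T i j k l =
    ∑ i, ∑ j, ∑ k, ∑ l, b i * b j * b k * b l *
      (T i j k l - T o j k l - T i o k l - T i j o l - T i j k o) := by
  have h1 : ∀ i j k l, (b i - C * (if i = o then 1 else 0)) *
      (b j - C * (if j = o then 1 else 0)) * (b k - C * (if k = o then 1 else 0)) *
      (b l - C * (if l = o then 1 else 0)) * T i j k l =
      b i * b j * b k * b l * T i j k l -
      (if i = o then C * (b j * b k * b l * T o j k l) else 0) -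
      (if j = o then C * (b i * b k * b l * T i o k l) else 0) -
      (if k = o then C * (b i * b j * b l * T i j o l) else 0) -
      (if l = o then C * (b i * b j * b k * T i j k o) else 0) := by
    intro i j k l
    by_cases hd : dist4 i j k l
    · obtain ⟨h12, h13, h14, h23, h24, h34⟩ := hd
      by_cases hi : i = o
      · subst hi
        rw [if_pos rfl, if_neg h12.symm, if_neg h13.symm, if_neg h14.symm, if_pos rfl,
          if_neg h12.symm, if_neg h13.symm, if_neg h14.symm, hbo]
        ring
      by_cases hj : j = o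
      · subst hj
        rw [if_neg hi, if_pos rfl, if_neg h23.symm, if_neg h24.symm, if_neg hi, if_pos rfl,
          if_neg h23.symm, if_neg h24.symm, hbo]
        ring
      by_cases hk : k = o
      · subst hk
        rw [if_neg hi, if_neg hj, if_pos rfl, if_neg h34.symm, if_neg hi, if_neg hj, if_pos rfl,
          if_neg h34.symm, hbo]
        ring
      by_cases hl : l = o
      · subst hl
        rw [if_neg hi, if_neg hj, if_neg hk, if_pos rfl, if_neg hi, if_neg hj, if_neg hk,
          if_pos rfl, hbo]
        ring
      · rw [if_neg hi, if_neg hj, if_neg hk, if_neg hl, if_neg hi, if_neg hj, if_neg hk,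
          if_neg hl]
        ring
    · have h0 := hT i j k l hd
      rw [h0]
      have e1 : (if i = o then C * (b j * b k * b l * T o j k l) else 0) = 0 := by
        split_ifs with h
        · rw [h] at h0
          rw [h0]
          ring
        · rfl
      have e2 : (if j = o then C * (b i * b k * b l * T i o k l) else 0) = 0 := by
        split_ifs with h
        · rw [h] at h0
          rw [h0]
          ring
        · rfl
      have e3 : (if k = o then C * (b i * b j * b l * T i j o l) else 0) = 0 := by
        split_ifs with h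
        · rw [h] at h0
          rw [h0]
          ring
        · rfl
      have e4 : (if l = o then C * (b i * b j * b k * T i j k o) else 0) = 0 := by
        split_ifs with h
        · rw [h] at h0
          rw [h0]
          ring
        · rfl
      rw [e1, e2, e3, e4]
      ring
  simp only [h1, Finset.sum_sub_distrib]
  have s1 : ∑ i, ∑ j, ∑ k, ∑ l, (if i = o then C * (b j * b k * b l * T o j k l) else 0) =
      ∑ i, ∑ j, ∑ k, ∑ l, b i * b j * b k * b l * T o j k l := by
    have : ∀ i, ∑ j, ∑ k, ∑ l, (if i = o then C * (b j * b k * b l * T o j k l) else 0) =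
        if i = o then ∑ j, ∑ k, ∑ l, C * (b j * b k * b l * T o j k l) else 0 := by
      intro i
      split_ifs <;> simp
    simp only [this]
    rw [Finset.sum_ite_eq' univ o, if_pos (Finset.mem_univ _)]
    simp only [← Finset.mul_sum]
    rw [hC, Finset.sum_mul]
    simp only [Finset.mul_sum]
    apply Finset.sum_congr rfl; intro i _
    apply Finset.sum_congr rfl; intro j _
    apply Finset.sum_congr rfl; intro k _
    apply Finset.sum_congr rfl; intro l _
    ring
  have s2 : ∑ i, ∑ j, ∑ k, ∑ l, (if j = o then C * (b i * b k * b l * T i o k l) else 0) =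
      ∑ i, ∑ j, ∑ k, ∑ l, b i * b j * b k * b l * T i o k l := by
    apply Finset.sum_congr rfl; intro i _
    have : ∀ j, ∑ k, ∑ l, (if j = o then C * (b i * b k * b l * T i o k l) else 0) =
        if j = o then ∑ k, ∑ l, C * (b i * b k * b l * T i o k l) else 0 := by
      intro j
      split_ifs <;> simp
    simp only [this]
    rw [Finset.sum_ite_eq' univ o, if_pos (Finset.mem_univ _)]
    simp only [← Finset.mul_sum]
    rw [hC, Finset.sum_mul]
    simp only [Finset.mul_sum]
    apply Finset.sum_congr rfl; intro j _
    apply Finset.sum_congr rfl; intro k _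
    apply Finset.sum_congr rfl; intro l _
    ring
  have s3 : ∑ i, ∑ j, ∑ k, ∑ l, (if k = o then C * (b i * b j * b l * T i j o l) else 0) =
      ∑ i, ∑ j, ∑ k, ∑ l, b i * b j * b k * b l * T i j o l := by
    apply Finset.sum_congr rfl; intro i _
    apply Finset.sum_congr rfl; intro j _
    have : ∀ k, ∑ l, (if k = o then C * (b i * b j * b l * T i j o l) else 0) =
        if k = o then ∑ l, C * (b i * b j * b l * T i j o l) else 0 := by
      intro k
      split_ifs <;> simp
    simp only [this]
    rw [Finset.sum_ite_eq' univ o, if_pos (Finset.mem_univ _)]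
    simp only [← Finset.mul_sum]
    rw [hC, Finset.sum_mul]
    simp only [Finset.mul_sum]
    apply Finset.sum_congr rfl; intro k _
    apply Finset.sum_congr rfl; intro l _
    ring
  have s4 : ∑ i, ∑ j, ∑ k, ∑ l, (if l = o then C * (b i * b j * b k * T i j k o) else 0) =
      ∑ i, ∑ j, ∑ k, ∑ l, b i * b j * b k * b l * T i j k o := by
    apply Finset.sum_congr rfl; intro i _
    apply Finset.sum_congr rfl; intro j _
    apply Finset.sum_congr rfl; intro k _
    rw [Finset.sum_ite_eq' univ o, if_pos (Finset.mem_univ _), hC, Finset.sum_mul]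
    apply Finset.sum_congr rfl; intro l _
    ring
  rw [s1, s2, s3, s4]
  simp only [mul_sub, Finset.sum_sub_distrib]

theorem oct (h5 : FiveStm) (hs : SumStm) : OctStm := by
  intro n W _ _ ρ hρ v o b hb hbo
  obtain ⟨hpos, hfive⟩ := h5 n W ρ hρ v
  obtain ⟨C, hC⟩ : ∃ C, C = ∑ i, b i := ⟨_, rfl⟩
  obtain ⟨c, hc⟩ : ∃ c : Fin n → ℝ, c = fun i => b i - C * (if i = o then 1 else 0) := ⟨_, rfl⟩
  have hc0 : ∑ i, c i = 0 := by
    rw [hc]
    simp only [Finset.sum_sub_distrib, ← Finset.mul_sum]
    rw [Finset.sum_ite_eq' univ o, if_pos (Finset.mem_univ _), hC]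
    ring
  obtain ⟨T, hTd⟩ : ∃ T : Fin n → Fin n → Fin n → Fin n → ℝ, T = fun i j k l =>
    if dist4 i j k l then QQ (mc ρ v) i j k l else 0 := ⟨_, rfl⟩
  have hT0 : ∀ i j k l, 0 ≤ T i j k l := by
    intro i j k l
    rw [hTd]
    simp only
    split_ifs with h
    · exact hpos i j k l h
    · exact le_rfl
  have hTn : ∀ i j k l, ¬ dist4 i j k l → T i j k l = 0 := by
    intro i j k l h
    rw [hTd]
    exact if_neg h
  have hT1 : ∀ i j k l, dist4 i j k l → T i j k l = QQ (mc ρ v) i j k l := by
    intro i j k l h
    rw [hTd]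
    exact if_pos h
  have hsum := hs n W ρ hρ v c hc0
  have e1 : ∑ i, ∑ j, ∑ k, ∑ l, (if dist4 i j k l then
      c i * c j * c k * c l * QQ (mc ρ v) i j k l else 0) ≤ 0 := by
    have e2 : ∑ i, ∑ j, ∑ k, ∑ l, (if dist4 i j k l then
        c i * c j * c k * c l * QQ (mc ρ v) i j k l else 0) =
        ∑ i, ∑ j, ∑ k, ∑ l, (b i - C * (if i = o then 1 else 0)) *
          (b j - C * (if j = o then 1 else 0)) * (b k - C * (if k = o then 1 else 0)) *
          (b l - C * (if l = o then 1 else 0)) * T i j k l := by
      apply Finset.sum_congr rfl; intro i _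
      apply Finset.sum_congr rfl; intro j _
      apply Finset.sum_congr rfl; intro k _
      apply Finset.sum_congr rfl; intro l _
      rw [hc, hTd]
      simp only
      split_ifs with h <;> first | rfl | ring
    rw [e2, expand T hTn o b hbo C hC]
    apply Finset.sum_nonpos; intro i _
    apply Finset.sum_nonpos; intro j _
    apply Finset.sum_nonpos; intro k _
    apply Finset.sum_nonpos; intro l _
    by_cases hi : i = o
    · rw [hi, hbo]; simp
    by_cases hj : j = o
    · rw [hj, hbo]; simp
    by_cases hk : k = o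
    · rw [hk, hbo]; simp
    by_cases hl : l = o
    · rw [hl, hbo]; simp
    apply mul_nonpos_of_nonneg_of_nonpos
    · exact mul_nonneg (mul_nonneg (mul_nonneg (hb i) (hb j)) (hb k)) (hb l)
    · by_cases hd : dist4 i j k l
      · have h6 := hfive o i j k l hd (Ne.symm hi) (Ne.symm hj) (Ne.symm hk) (Ne.symm hl)
        obtain ⟨h12, h13, h14, h23, h24, h34⟩ := hd
        rw [hT1 i j k l ⟨h12, h13, h14, h23, h24, h34⟩,
          hT1 o j k l ⟨Ne.symm hj, Ne.symm hk, Ne.symm hl, h23, h24, h34⟩,
          hT1 i o k l ⟨hi, h13, h14, Ne.symm hk, Ne.symm hl, h34⟩,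
          hT1 i j o l ⟨h12, hi, h14, hj, h24, Ne.symm hl⟩,
          hT1 i j k o ⟨h12, h13, hi, h23, hj, hk⟩]
        linarith
      · rw [hTn i j k l hd]
        have := hT0 o j k l
        have := hT0 i o k l
        have := hT0 i j o l
        have := hT0 i j k o
        linarith
  rw [hsum] at e1
  -- the sum of the matrix coefficients is nonnegative
  have hX : 0 ≤ ∑ i, ∑ j, c i * c j * mc ρ v (swap i j) := by
    have hc2 : 0 ≤ ∑ i, c i ^ 2 := Finset.sum_nonneg fun i _ => sq_nonneg _
    rcases hc2.eq_or_lt with h | h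
    · have hz : ∀ i, c i = 0 := by
        intro i
        have := (Finset.sum_eq_zero_iff_of_nonneg (fun i _ => sq_nonneg (c i))).1 h.symm i
          (Finset.mem_univ _)
        exact pow_eq_zero_iff (two_ne_zero) |>.1 this
      simp [hz]
    · have h7 : 0 ≤ ‖∑ i, ∑ j, (c i * c j) • ρ (swap i j) v‖ ^ 2 := sq_nonneg _
      by_contra hneg
      rw [not_le] at hneg
      have := mul_neg_of_pos_of_neg h hneg
      nlinarith
  -- in terms of the Dirichlet forms
  have hDD : ∑ i, ∑ j, c i * c j * DD ρ v i j = -∑ i, ∑ j, c i * c j * mc ρ v (swap i j) := by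
    have e3 : ∀ i, ∑ j, c i * c j * DD ρ v i j = c i * mc ρ v 1 * (∑ j, c j) -
        ∑ j, c i * c j * mc ρ v (swap i j) := by
      intro i
      rw [Finset.mul_sum, ← Finset.sum_sub_distrib]
      apply Finset.sum_congr rfl; intro j _
      unfold DD
      ring
    simp only [e3, hc0, mul_zero, zero_sub, Finset.sum_neg_distrib]
  have hexp : ∑ i, ∑ j, c i * c j * DD ρ v i j = ∑ i, ∑ j, b i * b j * DD ρ v i j -
      2 * C * ∑ i, b i * DD ρ v o i := by
    have e4 : ∀ i j, c i * c j * DD ρ v i j = b i * b j * DD ρ v i j -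
        (if j = o then C * (b i * DD ρ v o i) else 0) -
        (if i = o then C * (b j * DD ρ v o j) else 0) := by
      intro i j
      rw [hc]
      simp only
      by_cases hi : i = o
      · by_cases hj : j = o
        · rw [hi, hj, DD_self]; simp
        · rw [hi, if_pos rfl, if_neg hj, if_pos rfl, hbo]; simp [hj]; ring
      · by_cases hj : j = o
        · rw [hj, if_pos rfl, if_neg hi, if_pos rfl, hbo, DD_comm v o i]; simp [hi]; ring
        · rw [if_neg hi, if_neg hj, if_neg hi, if_neg hj]; ring
    simp only [e4, Finset.sum_sub_distrib]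
    have e5 : ∑ i, ∑ j, (if j = o then C * (b i * DD ρ v o i) else 0) =
        C * ∑ i, b i * DD ρ v o i := by
      rw [Finset.mul_sum]
      apply Finset.sum_congr rfl; intro i _
      rw [Finset.sum_ite_eq' univ o, if_pos (Finset.mem_univ _)]
    have e6 : ∑ i, ∑ j, (if i = o then C * (b j * DD ρ v o j) else 0) =
        C * ∑ i, b i * DD ρ v o i := by
      rw [Finset.sum_comm, Finset.mul_sum]
      apply Finset.sum_congr rfl; intro j _
      rw [Finset.sum_ite_eq' univ o, if_pos (Finset.mem_univ _)]
    rw [e5, e6]
    ring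
  rw [hexp] at hDD
  rw [← hC]
  linarith

end Q296.OC
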